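import Pool.Agent.R165.Poly.Shift

/-!
# MP_7297ca_co: perimeter-to-area ratio of shifted (k, n)-setups

The plane is `ℂ`. `regVertices n z` is the vertex set of the regular `n`-gon centred at `0` with
vertex `z`, `regPolygon n z` its convex hull, `IsBasicSetup`, `IsMarking` and `shiftedUnion` are
the notions of the problem, and `ratio S` is the one-dimensional Hausdorff measure of the frontier
of `S` divided by the area of `S`.
-/

set_option autoImplicit false

open MeasureTheory Set
open scoped Real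

namespace Pool.Agent.Results.MP_7297ca_co.ShiftedSetups

open Pool.Agent.R165.Poly (IsBasicSetup IsMarking shiftedUnion ratio ratio_iff exists_setup)

/-- The answer to the question is yes: for coprime `k ≥ 1`, `n ≥ 3`, the ratio of a shifted
`(k, n)`-setup exceeds `4 tan (π / n)` if and only if `k > 1` and `k ≡ 1 (mod n)`.
Moreover, for every basic setup and every admissible marking, for all sufficiently small `ε > 0`
the ratio exceeds `4 tan (π / n)` if and only if `k > 1` and `k ≡ 1 (mod n)`; and setups with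
admissible markings exist. -/
theorem result (k n : ℕ) (hk : 1 ≤ k) (hn : 3 ≤ n) (hkn : k.Coprime n) :
    ((∀ z a : Fin k → ℂ, IsBasicSetup k n z → IsMarking k n z a →
        ∃ ε₀ > 0, ∀ ε : ℝ, 0 < ε → ε < ε₀ →
          4 * Real.tan (π / n) < ratio (shiftedUnion n z a ε)) ↔
      (1 < k ∧ k ≡ 1 [MOD n])) ∧
    (∀ z a : Fin k → ℂ, IsBasicSetup k n z → IsMarking k n z a →
        ∃ ε₀ > 0, ∀ ε : ℝ, 0 < ε → ε < ε₀ →
          (4 * Real.tan (π / n) < ratio (shiftedUnion n z a ε) ↔ 1 < k ∧ k ≡ 1 [MOD n])) ∧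
    ∃ z a : Fin k → ℂ, IsBasicSetup k n z ∧ IsMarking k n z a := by
  have hall : ∀ z a : Fin k → ℂ, IsBasicSetup k n z → IsMarking k n z a →
        ∃ ε₀ > 0, ∀ ε : ℝ, 0 < ε → ε < ε₀ →
          (4 * Real.tan (π / n) < ratio (shiftedUnion n z a ε) ↔ 1 < k ∧ k ≡ 1 [MOD n]) :=
    fun z a hz ha => ratio_iff hk hn hkn hz ha
  refine ⟨⟨fun h => ?_, fun h z a hz ha => ?_⟩, hall, exists_setup hk hn hkn⟩
  · obtain ⟨z, a, hz, ha⟩ := exists_setup hk hn hkn
    obtain ⟨e1, he1, h1⟩ := h z a hz ha
    obtain ⟨e2, he2, h2⟩ := hall z a hz ha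
    have hm : 0 < min e1 e2 := lt_min he1 he2
    have hl1 : min e1 e2 / 2 < e1 := by linarith [min_le_left e1 e2]
    have hl2 : min e1 e2 / 2 < e2 := by linarith [min_le_right e1 e2]
    exact (h2 _ (by linarith) hl2).1 (h1 _ (by linarith) hl1)
  · obtain ⟨e2, he2, h2⟩ := hall z a hz ha
    exact ⟨e2, he2, fun ε h0 h1 => (h2 ε h0 h1).2 h⟩

end Pool.Agent.Results.MP_7297ca_co.ShiftedSetups
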